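import Pool.Agent.Work.MP_db9399_da.Pre2

/-!
# MP_db9399, DENSE-ALL, phase 2, block DEX (helper30)

The partner invariant `EXI` under one exchange.
-/

set_option autoImplicit false

namespace Pool.Agent.Work.MP_db9399_da.helper30

open Finset Classical
open Pool.Agent.Work.MP_db9399_all (nb)
open Pool.Agent.Work.MP_db9399_lt (us)
open Pool.Agent.Work.MP_db9399_da

universe u

variable {V : Type u} [Fintype V] {M : ℕ}

/-- signed indicator: `v` is a member of the side `β` of the piece `n` -/
noncomputable def iv (P : Pcs V M) (n : Fin M) (β : Bool) (v : V) : ℤ :=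
  if v ∉ P.V0 ∧ P.pc v = n ∧ P.sd v = β then 1 else 0

theorem iv_nonneg (P : Pcs V M) (n : Fin M) (β : Bool) (v : V) : 0 ≤ iv P n β v := by
  unfold iv; split_ifs <;> simp

theorem iv_le (P : Pcs V M) (n : Fin M) (β : Bool) (v : V) : iv P n β v ≤ 1 := by
  unfold iv; split_ifs <;> simp

theorem iv_excl (P : Pcs V M) (n : Fin M) (β : Bool) (v : V) (h : iv P n β v ≠ 0) :
    iv P n (!β) v = 0 := by
  unfold iv at h ⊢
  by_cases h1 : v ∉ P.V0 ∧ P.pc v = n ∧ P.sd v = β
  · rw [if_neg]
    rintro ⟨_, _, h4⟩
    rw [h1.2.2] at h4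
    cases β <;> simp at h4
  · exact absurd (if_neg h1) h

/-- number of vertices of the side `β` with the colour `c` (with the instances of `need`) -/
noncomputable def cs {W : Type u} [Fintype W] (F : W → Finset ℕ) (sd : W → Bool) (β : Bool)
    (c : ℕ) : ℤ := ((sid sd β ∩ us F c).card : ℤ)

theorem card_eq (P : Pcs V M) (n : Fin M) (F : V → Finset ℕ) (β : Bool) (c : ℕ) :
    cs (fun y : Ts P n => F y.1) (sdn P n) β c =
      ∑ y : V, if (y ∉ P.V0 ∧ P.pc y = n ∧ P.sd y = β) ∧ c ∈ F y then 1 else 0 := by
  have h1 : (univ.filter (fun y : Ts P n => P.sd y.1 = β ∧ c ∈ F y.1)).map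
      (Function.Embedding.subtype _) =
      univ.filter (fun y : V => (y ∉ P.V0 ∧ P.pc y = n ∧ P.sd y = β) ∧ c ∈ F y) := by
    ext y
    simp only [mem_map, mem_filter, mem_univ, true_and,
      Function.Embedding.subtype_apply]
    constructor
    · rintro ⟨⟨z, h2⟩, ⟨h3, h4⟩, rfl⟩
      exact ⟨⟨h2.1, h2.2, h3⟩, h4⟩
    · rintro ⟨⟨h2, h3, h4⟩, h5⟩
      exact ⟨⟨y, h2, h3⟩, ⟨h4, h5⟩, rfl⟩
  have h2 : cs (fun y : Ts P n => F y.1) (sdn P n) β c =
      ((univ.filter (fun y : Ts P n => P.sd y.1 = β ∧ c ∈ F y.1)).card : ℤ) := by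
    unfold cs sid us sdn
    congr 2
    ext y
    simp
  rw [h2, ← card_map (Function.Embedding.subtype _), h1, card_filter]
  push_cast
  rfl

/-- change of the number of members of a side with the colour `c` -/
theorem card_change (P : Pcs V M) (n : Fin M) (F F' : V → Finset ℕ) (v x : V) (b b3 f : ℕ)
    (hvx : v ≠ x) (hb : b ∈ F v) (hb3v : b3 ∉ F v)
    (hb3x : b3 ∈ F x) (hfx : f ∉ F x) (hv' : F' v = insert b3 ((F v).erase b))
    (hx' : F' x = insert f ((F x).erase b3))
    (hy : ∀ y, y ∉ P.V0 → y ≠ v → y ≠ x → F' y = F y) (β : Bool) (c : ℕ) :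
    cs (fun y : Ts P n => F' y.1) (sdn P n) β c =
      cs (fun y : Ts P n => F y.1) (sdn P n) β c +
      iv P n β v * ((if c = b3 then 1 else 0) - (if c = b then 1 else 0)) +
      iv P n β x * ((if c = f then 1 else 0) - (if c = b3 then 1 else 0)) := by
  rw [card_eq, card_eq]
  have key : ∀ y : V, (if (y ∉ P.V0 ∧ P.pc y = n ∧ P.sd y = β) ∧ c ∈ F' y then (1 : ℤ) else 0) =
      (if (y ∉ P.V0 ∧ P.pc y = n ∧ P.sd y = β) ∧ c ∈ F y then 1 else 0) +
      (if y = v then iv P n β v * ((if c = b3 then 1 else 0) - (if c = b then 1 else 0)) else 0) +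
      (if y = x then iv P n β x * ((if c = f then 1 else 0) - (if c = b3 then 1 else 0))
        else 0) := by
    intro y
    by_cases hyv : y = v
    · subst hyv
      rw [if_pos rfl, if_neg hvx, hv']
      unfold iv
      by_cases hm : y ∉ P.V0 ∧ P.pc y = n ∧ P.sd y = β
      · have hbb : b ≠ b3 := fun h => hb3v (h ▸ hb)
        rw [if_pos hm]
        simp only [hm, not_false_eq_true, true_and, mem_insert, mem_erase]
        by_cases h1 : c = b3
        · subst h1
          simp [hb3v, hbb.symm]
        · by_cases h2 : c = b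
          · subst h2
            simp [hb, hbb]
          · simp [h1, h2]
      · simp [hm]
    · by_cases hyx : y = x
      · subst hyx
        rw [if_neg hyv, if_pos rfl, hx']
        unfold iv
        by_cases hm : y ∉ P.V0 ∧ P.pc y = n ∧ P.sd y = β
        · have hff : f ≠ b3 := fun h => hfx (h ▸ hb3x)
          rw [if_pos hm]
          simp only [hm, not_false_eq_true, true_and, mem_insert, mem_erase]
          by_cases h1 : c = b3
          · subst h1
            simp [hb3x, hff.symm]
          · by_cases h2 : c = f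
            · subst h2
              simp [hfx, hff]
            · simp [h1, h2]
        · simp [hm]
      · rw [if_neg hyv, if_neg hyx]
        by_cases hm : y ∉ P.V0
        · rw [hy y hm hyv hyx]; simp
        · simp [hm]
  rw [sum_congr rfl (fun y _ => key y), sum_add_distrib, sum_add_distrib]
  simp

theorem cast_need {W : Type u} [Fintype W] (F : W → Finset ℕ) (sd : W → Bool) (β : Bool)
    (b : ℕ) : ((need F sd β b : ℕ) : ℤ) =
      max 0 (cs F sd (!β) b - cs F sd β b) := by
  unfold need cs
  omega

theorem stmt_DEX : Stmt_DEX.{u} := by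
  intro V _ M ζ d P X Ss U F F' v x b b3 f n β hB hv hx hvx hb hb3v hb3x hfx hv' hx' hy hbU hfU
    hb3U hb3S hsg hSC hE
  have hch := card_change P n F F' v x b b3 f hvx hb hb3v hb3x hfx hv' hx' hy
  unfold EXI at hE ⊢
  -- the increment
  set D : ℤ := max 0 (iv P n β v - iv P n β x - iv P n (!β) v + iv P n (!β) x) with hD
  have hD0 : 0 ≤ D := le_max_left _ _
  have hbb : b ≠ b3 := fun h => hb3v (h ▸ hb)
  have hff : f ≠ b3 := fun h => hfx (h ▸ hb3x)
  have hRHS : ((∑ c ∈ insert b3 U, need (fun y : Ts P n => F' y.1) (sdn P n) (!β) c : ℕ) : ℤ) =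
      D + ((∑ c ∈ U, need (fun y : Ts P n => F y.1) (sdn P n) (!β) c : ℕ) : ℤ) := by
    rw [sum_insert hb3U]
    push_cast
    congr 1
    · rw [cast_need, hch, hch, Bool.not_not]
      have h0 : cs (fun y : Ts P n => F y.1) (sdn P n) β b3 =
          cs (fun y : Ts P n => F y.1) (sdn P n) (!β) b3 := by
        unfold sg at hsg
        unfold cs
        cases β
        · simp only [Bool.not_false]; linarith
        · simp only [Bool.not_true]; linarith
      rw [h0, if_pos rfl, if_neg hbb.symm, if_neg hff.symm, hD]
      congr 1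
      ring
    · apply sum_congr rfl
      intro c hc
      have h1 : c ≠ b := fun h => hbU (h ▸ hc)
      have h2 : c ≠ f := fun h => hfU (h ▸ hc)
      have h3 : c ≠ b3 := fun h => hb3U (h ▸ hc)
      rw [cast_need, cast_need, hch, hch, if_neg h1, if_neg h2, if_neg h3]
      simp
  have hLHS : ((∑ c ∈ Bkn X P ζ d Ss n β,
      need (fun y : Ts P n => F' y.1) (sdn P n) β c : ℕ) : ℤ) ≤
      D + ((∑ c ∈ Bkn X P ζ d Ss n β,
        need (fun y : Ts P n => F y.1) (sdn P n) β c : ℕ) : ℤ) := by
    set Bk := Bkn X P ζ d Ss n β with hBk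
    have hb3B : b3 ∉ Bk := fun h => hb3S (mem_of_mem_filter _ h)
    -- increments of single colours
    have h1 : ∀ c ∈ Bk, ((need (fun y : Ts P n => F' y.1) (sdn P n) β c : ℕ) : ℤ) ≤
        ((need (fun y : Ts P n => F y.1) (sdn P n) β c : ℕ) : ℤ) +
          max 0 ((if c = b then iv P n β v - iv P n (!β) v else 0) +
            (if c = f then iv P n (!β) x - iv P n β x else 0)) := by
      intro c hc
      have h3 : c ≠ b3 := fun h => hb3B (h ▸ hc)
      rw [cast_need, cast_need, hch, hch, if_neg h3]
      by_cases h4 : c = b <;> by_cases h5 : c = f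
      · simp only [if_pos h4, if_pos h5]
        omega
      · simp only [if_pos h4, if_neg h5]
        omega
      · simp only [if_neg h4, if_pos h5]
        omega
      · simp only [if_neg h4, if_neg h5]
        omega
    have h2 : ∑ c ∈ Bk, max 0 ((if c = b then iv P n β v - iv P n (!β) v else 0) +
            (if c = f then iv P n (!β) x - iv P n β x else 0)) ≤ D := by
      by_cases hfb : f = b
      · subst hfb
        have : ∀ c ∈ Bk, max 0 ((if c = f then iv P n β v - iv P n (!β) v else 0) +
            (if c = f then iv P n (!β) x - iv P n β x else 0)) ≤ if c = f then D else 0 := by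
          intro c _
          by_cases h4 : c = f
          · simp only [if_pos h4]
            rw [hD]
            apply max_le_max le_rfl
            linarith
          · simp [if_neg h4]
        refine (sum_le_sum this).trans ?_
        rw [sum_ite_eq' Bk f]
        split_ifs
        · exact le_rfl
        · exact hD0
      · have hns : ¬ SC P v x := hSC.resolve_left hfb
        have : ∀ c ∈ Bk, max 0 ((if c = b then iv P n β v - iv P n (!β) v else 0) +
            (if c = f then iv P n (!β) x - iv P n β x else 0)) ≤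
              (if c = b then iv P n β v else 0) + (if c = f then iv P n (!β) x else 0) := by
          intro c _
          have e1 := iv_nonneg P n β v
          have e2 := iv_nonneg P n (!β) v
          have e3 := iv_nonneg P n β x
          have e4 := iv_nonneg P n (!β) x
          split_ifs <;> omega
        refine (sum_le_sum this).trans ?_
        rw [sum_add_distrib, sum_ite_eq' Bk b, sum_ite_eq' Bk f]
        have e1 := iv_nonneg P n β v
        have e2 := iv_nonneg P n (!β) v
        have e3 := iv_nonneg P n β x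
        have e4 := iv_nonneg P n (!β) x
        have f1 := iv_le P n β v
        have f2 := iv_le P n (!β) v
        have f3 := iv_le P n β x
        have f4 := iv_le P n (!β) x
        have g0 : iv P n β v + iv P n (!β) x ≤ D := by
          rw [hD]
          by_cases k1 : iv P n β v = 0
          · by_cases k2 : iv P n (!β) x = 0
            · rw [k1, k2]; simp
            · -- x in the other side: v is not
              have k3 := iv_excl P n (!β) x k2
              rw [Bool.not_not] at k3
              have k4 : iv P n (!β) v = 0 := by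
                by_contra k5
                apply hns
                unfold iv at k5 k2
                have k6 : v ∉ P.V0 ∧ P.pc v = n ∧ P.sd v = (!β) := by
                  by_contra k7; exact k5 (if_neg k7)
                have k7 : x ∉ P.V0 ∧ P.pc x = n ∧ P.sd x = (!β) := by
                  by_contra k8; exact k2 (if_neg k8)
                exact ⟨k6.2.1 ▸ hB, k6.2.1.trans k7.2.1.symm, k6.2.2.trans k7.2.2.symm⟩
              rw [k1, k3, k4]; simp
          · have k3 := iv_excl P n β v k1
            have k4 : iv P n β x = 0 := by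
              by_contra k5
              apply hns
              unfold iv at k5 k1
              have k6 : v ∉ P.V0 ∧ P.pc v = n ∧ P.sd v = β := by
                by_contra k7; exact k1 (if_neg k7)
              have k7 : x ∉ P.V0 ∧ P.pc x = n ∧ P.sd x = β := by
                by_contra k8; exact k5 (if_neg k8)
              exact ⟨k6.2.1 ▸ hB, k6.2.1.trans k7.2.1.symm, k6.2.2.trans k7.2.2.symm⟩
            rw [k3, k4]; simp
        split_ifs <;> omega
    push_cast
    calc ∑ c ∈ Bk, ((need (fun y : Ts P n => F' y.1) (sdn P n) β c : ℕ) : ℤ)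
        ≤ ∑ c ∈ Bk, (((need (fun y : Ts P n => F y.1) (sdn P n) β c : ℕ) : ℤ) +
          max 0 ((if c = b then iv P n β v - iv P n (!β) v else 0) +
            (if c = f then iv P n (!β) x - iv P n β x else 0))) := sum_le_sum h1
      _ = ∑ c ∈ Bk, ((need (fun y : Ts P n => F y.1) (sdn P n) β c : ℕ) : ℤ) +
          ∑ c ∈ Bk, max 0 ((if c = b then iv P n β v - iv P n (!β) v else 0) +
            (if c = f then iv P n (!β) x - iv P n β x else 0)) := sum_add_distrib
      _ ≤ D + ∑ c ∈ Bk, ((need (fun y : Ts P n => F y.1) (sdn P n) β c : ℕ) : ℤ) := by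
        linarith
  have hE' : ((∑ c ∈ Bkn X P ζ d Ss n β,
      need (fun y : Ts P n => F y.1) (sdn P n) β c : ℕ) : ℤ) ≤
      ((∑ c ∈ U, need (fun y : Ts P n => F y.1) (sdn P n) (!β) c : ℕ) : ℤ) := by
    exact_mod_cast hE
  have : ((∑ c ∈ Bkn X P ζ d Ss n β,
      need (fun y : Ts P n => F' y.1) (sdn P n) β c : ℕ) : ℤ) ≤
      ((∑ c ∈ insert b3 U, need (fun y : Ts P n => F' y.1) (sdn P n) (!β) c : ℕ) : ℤ) := by
    rw [hRHS]; linarith
  exact_mod_cast this

end Pool.Agent.Work.MP_db9399_da.helper30
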